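import Pool.Agent.Run7.h635.PER.Stm

/-!
# FLD (project PER of helper635): number field of an eigenform, growth of the conjugates
-/

set_option autoImplicit false

open Polynomial

namespace H639.PER

open H635.PER

/-- An eigenvalue of an integral matrix is a root of its characteristic polynomial. -/
lemma root_of_eig {n : ℕ} (T : Matrix (Fin n) (Fin n) ℤ) (c : ℂ) (x : Fin n → ℂ) (hx : x ≠ 0)
    (h : ∀ i, c * x i = ∑ j, (T i j : ℂ) * x j) : aeval c T.charpoly = 0 := by
  have h1 : (T.map (Int.castRingHom ℂ)).charpoly.eval c = 0 := by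
    rw [Matrix.eval_charpoly]
    rw [← Matrix.exists_mulVec_eq_zero_iff]
    refine ⟨x, hx, ?_⟩
    rw [Matrix.sub_mulVec, Matrix.scalar_apply, ← Matrix.smul_one_eq_diagonal,
      Matrix.smul_mulVec, Matrix.one_mulVec]
    funext i
    simp only [Pi.sub_apply, Pi.smul_apply, smul_eq_mul, Matrix.mulVec, dotProduct, Matrix.map_apply,
      Pi.zero_apply]
    rw [h i]
    simp
  rw [Matrix.charpoly_map, Polynomial.eval_map] at h1
  rw [aeval_def, algebraMap_int_eq]
  exact h1

/-- Roots of the characteristic polynomial are bounded by the row sums. -/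
lemma root_bound {n : ℕ} (T : Matrix (Fin n) (Fin n) ℤ) (c : ℂ) (B : ℝ)
    (hT : ∀ i j, |(T i j : ℝ)| ≤ B) (h : aeval c T.charpoly = 0) : ‖c‖ ≤ n * B := by
  have h1 : (T.map (Int.castRingHom ℂ)).charpoly.eval c = 0 := by
    rw [Matrix.charpoly_map, Polynomial.eval_map]
    rw [aeval_def, algebraMap_int_eq] at h
    exact h
  rw [Matrix.eval_charpoly, ← Matrix.exists_mulVec_eq_zero_iff] at h1
  obtain ⟨x, hx, h1⟩ := h1
  rw [Matrix.sub_mulVec, Matrix.scalar_apply, ← Matrix.smul_one_eq_diagonal,
      Matrix.smul_mulVec, Matrix.one_mulVec] at h1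
  have h2 : ∀ i, c * x i = ∑ j, (T i j : ℂ) * x j := by
    intro i
    have := congrFun h1 i
    simp only [Pi.sub_apply, Pi.smul_apply, smul_eq_mul, Matrix.mulVec, dotProduct, Matrix.map_apply,
      Pi.zero_apply] at this
    simpa using sub_eq_zero.1 this
  obtain ⟨i0, hi0⟩ : ∃ i, x i ≠ 0 := by
    by_contra hcon
    push Not at hcon
    exact hx (funext hcon)
  obtain ⟨i, -, hi⟩ := Finset.exists_max_image Finset.univ (fun i => ‖x i‖) ⟨i0, Finset.mem_univ _⟩
  have hpos : 0 < ‖x i‖ := (norm_pos_iff.2 hi0).trans_le (hi i0 (Finset.mem_univ _))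
  have h3 : ‖c‖ * ‖x i‖ ≤ (n * B) * ‖x i‖ := by
    rw [← norm_mul, h2 i]
    calc ‖∑ j, (T i j : ℂ) * x j‖ ≤ ∑ j, ‖(T i j : ℂ) * x j‖ := norm_sum_le _ _
      _ ≤ ∑ _j : Fin n, B * ‖x i‖ := by
          apply Finset.sum_le_sum
          intro j _
          rw [norm_mul, Complex.norm_intCast]
          exact mul_le_mul (hT i j) (hi j (Finset.mem_univ _)) (norm_nonneg _)
            ((abs_nonneg _).trans (hT i j))
      _ = (n * B) * ‖x i‖ := by
          rw [Finset.sum_const, Finset.card_univ, Fintype.card_fin, nsmul_eq_mul]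
          ring
  exact le_of_mul_le_mul_right h3 hpos

/-- The multiplier field of a finite-dimensional nonzero subspace of `ℂ`. -/
noncomputable def multField (W : Submodule ℚ ℂ) (_hW : W ≠ ⊥) [FiniteDimensional ℚ W] :
    IntermediateField ℚ ℂ where
  carrier := {z | ∀ w ∈ W, z * w ∈ W}
  mul_mem' := by
    intro a b ha hb w hw
    rw [mul_assoc]
    exact ha _ (hb _ hw)
  one_mem' := by
    intro w hw
    rwa [one_mul]
  add_mem' := by
    intro a b ha hb w hw
    rw [add_mul]
    exact W.add_mem (ha _ hw) (hb _ hw)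
  zero_mem' := by
    intro w hw
    rw [zero_mul]
    exact W.zero_mem
  algebraMap_mem' := by
    intro r w hw
    rw [← Algebra.smul_def]
    exact W.smul_mem r hw
  inv_mem' := by
    intro z hz w hw
    by_cases h0 : z = 0
    · rw [h0, inv_zero, zero_mul]
      exact W.zero_mem
    · let φ : W →ₗ[ℚ] W :=
        { toFun := fun w => ⟨z * w, hz w w.2⟩
          map_add' := by
            intro a b
            ext
            simp [mul_add]
          map_smul' := by
            intro a b
            ext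
            simp }
      have hinj : Function.Injective φ := by
        intro a b hab
        have h1 : z * (a : ℂ) = z * (b : ℂ) := congrArg Subtype.val hab
        exact Subtype.ext (mul_left_cancel₀ h0 h1)
      obtain ⟨w', hw'⟩ := (LinearMap.injective_iff_surjective.1 hinj) ⟨w, hw⟩
      have h2 : z * (w' : ℂ) = w := congrArg Subtype.val hw'
      rw [← h2, ← mul_assoc, inv_mul_cancel₀ h0, one_mul]
      exact w'.2

lemma mem_multField (W : Submodule ℚ ℂ) (hW : W ≠ ⊥) [FiniteDimensional ℚ W] (z : ℂ) :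
    z ∈ multField W hW ↔ ∀ w ∈ W, z * w ∈ W := Iff.rfl

lemma fd_multField (W : Submodule ℚ ℂ) (hW : W ≠ ⊥) [FiniteDimensional ℚ W] :
    FiniteDimensional ℚ (multField W hW) := by
  obtain ⟨w, hw, hw0⟩ := W.ne_bot_iff.1 hW
  let φ : multField W hW →ₗ[ℚ] W :=
    { toFun := fun z => ⟨(z : ℂ) * w, z.2 w hw⟩
      map_add' := by
        intro a b
        ext
        simp [add_mul]
      map_smul' := by
        intro a b
        ext
        simp }
  have hinj : Function.Injective φ := by
    intro a b hab
    have h1 : (a : ℂ) * w = (b : ℂ) * w := congrArg Subtype.val hab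
    exact Subtype.ext (mul_right_cancel₀ hw0 h1)
  exact FiniteDimensional.of_injective φ hinj

/-- **FLD** -/
theorem fld : S_Fld := by
  intro k e χ a he hχ ha0 ha1 hrec ⟨n, x, hx, C, A, hT⟩
  have hint_p : ∀ p : ℕ, p.Prime → IsIntegral ℤ (a p) := by
    intro p hp
    obtain ⟨T, -, hT2⟩ := hT p hp
    exact ⟨T.charpoly, T.charpoly_monic, root_of_eig T (a p) x hx hT2⟩
  have hint_χ : ∀ p : ℕ, IsIntegral ℤ (χ p) := by
    intro p
    rcases hχ p with h | h
    · rw [h]; exact isIntegral_zero
    · exact IsIntegral.of_pow (n := e) (by omega) (by rw [h]; exact isIntegral_one)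
  have hint : ∀ N : ℕ, IsIntegral ℤ (a N) := by
    intro N
    induction N using Nat.strong_induction_on with
    | _ N ih =>
      by_cases h0 : N = 0
      · rw [h0, ha0]; exact isIntegral_zero
      by_cases h1 : N = 1
      · rw [h1, ha1]; exact isIntegral_one
      have hp := Nat.minFac_prime h1
      obtain ⟨q, hq⟩ := Nat.minFac_dvd N
      have hq0 : 0 < q := by
        rcases Nat.eq_zero_or_pos q with h | h
        · rw [h, mul_zero] at hq; exact absurd hq h0
        · exact h
      have hqN : q < N := by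
        calc q < N.minFac * q := by nlinarith [hp.two_le]
          _ = N := hq.symm
      rw [hq, hrec _ hp q]
      apply IsIntegral.sub
      · exact (hint_p _ hp).mul (ih q hqN)
      · split_ifs
        · refine IsIntegral.mul (IsIntegral.mul (hint_χ _) (IsIntegral.pow ?_ _))
            (ih _ (lt_of_le_of_lt (Nat.div_le_self _ _) hqN))
          exact_mod_cast (isIntegral_algebraMap (R := ℤ) (A := ℂ) (x := (N.minFac : ℤ)))
        · exact isIntegral_zero
  refine ⟨hint, ?_⟩
  -- the space
  let G : Set ℂ := Set.image2 (fun y u => y * u) (Set.range x) {u : ℂ | u ^ e = 1}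
  have hGfin : G.Finite := by
    apply Set.Finite.image2
    · exact Set.finite_range x
    · have : {u : ℂ | u ^ e = 1} = ((Polynomial.nthRootsFinset e (1 : ℂ) : Finset ℂ) : Set ℂ) := by
        ext u
        simp [Polynomial.mem_nthRootsFinset (show 0 < e by omega)]
      rw [this]
      exact Finset.finite_toSet _
  let W : Submodule ℚ ℂ := Submodule.span ℚ G
  have hfd : FiniteDimensional ℚ W := FiniteDimensional.span_of_finite ℚ hGfin
  have hGx : ∀ i u, u ^ e = 1 → x i * u ∈ W := fun i u hu =>
    Submodule.subset_span ⟨x i, ⟨i, rfl⟩, u, hu, rfl⟩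
  have hW : W ≠ ⊥ := by
    obtain ⟨i, hi⟩ : ∃ i, x i ≠ 0 := by
      by_contra hcon
      push Not at hcon
      exact hx (funext hcon)
    rw [Submodule.ne_bot_iff]
    refine ⟨x i, ?_, hi⟩
    have := hGx i 1 (one_pow e)
    rwa [mul_one] at this
  have hmul : ∀ z : ℂ, (∀ i u, u ^ e = 1 → z * (x i * u) ∈ W) → ∀ w ∈ W, z * w ∈ W := by
    intro z hz w hw
    induction hw using Submodule.span_induction with
    | mem w hw =>
      obtain ⟨_, ⟨i, rfl⟩, u, hu, rfl⟩ := hw
      exact hz i u hu
    | zero => rw [mul_zero]; exact W.zero_mem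
    | add a b _ _ h1 h2 => rw [mul_add]; exact W.add_mem h1 h2
    | smul r b _ h1 => rw [mul_smul_comm]; exact W.smul_mem r h1
  have hKp : ∀ p : ℕ, p.Prime → a p ∈ multField W hW := by
    intro p hp
    rw [mem_multField]
    apply hmul
    intro i u hu
    obtain ⟨T, -, hT2⟩ := hT p hp
    rw [← mul_assoc, hT2 i, Finset.sum_mul]
    apply Submodule.sum_mem
    intro j _
    rw [mul_assoc]
    have h1 : ((T i j : ℤ) : ℂ) * (x j * u) = ((T i j : ℤ) : ℚ) • (x j * u) := by
      rw [Algebra.smul_def]
      simp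
    rw [h1]
    exact W.smul_mem _ (hGx j u hu)
  have hKχ : ∀ p : ℕ, χ p ∈ multField W hW := by
    intro p
    rcases hχ p with h | h
    · rw [h]; exact (multField W hW).zero_mem
    · rw [mem_multField]
      apply hmul
      intro i u hu
      have h1 : χ p * (x i * u) = x i * (χ p * u) := by ring
      rw [h1]
      apply hGx
      rw [mul_pow, h, hu, one_mul]
  have hK : ∀ N : ℕ, a N ∈ multField W hW := by
    intro N
    induction N using Nat.strong_induction_on with
    | _ N ih =>
      by_cases h0 : N = 0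
      · rw [h0, ha0]; exact (multField W hW).zero_mem
      by_cases h1 : N = 1
      · rw [h1, ha1]; exact (multField W hW).one_mem
      have hp := Nat.minFac_prime h1
      obtain ⟨q, hq⟩ := Nat.minFac_dvd N
      have hq0 : 0 < q := by
        rcases Nat.eq_zero_or_pos q with h | h
        · rw [h, mul_zero] at hq; exact absurd hq h0
        · exact h
      have hqN : q < N := by
        calc q < N.minFac * q := by nlinarith [hp.two_le]
          _ = N := hq.symm
      rw [hq, hrec _ hp q]
      apply (multField W hW).sub_mem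
      · exact (multField W hW).mul_mem (hKp _ hp) (ih q hqN)
      · split_ifs
        · exact (multField W hW).mul_mem ((multField W hW).mul_mem (hKχ _)
            (pow_mem (natCast_mem (multField W hW) N.minFac) _))
            (ih _ (lt_of_le_of_lt (Nat.div_le_self _ _) hqN))
        · exact (multField W hW).zero_mem
  refine ⟨multField W hW, fd_multField W hW, hK, 1, A + n * C + 1 + k, ?_⟩
  intro σ
  -- conjugates
  set D : ℕ := n * C with hD
  have hσp : ∀ p : ℕ, p.Prime → ‖σ ⟨a p, hK p⟩‖ ≤ D * (p : ℝ) ^ A := by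
    intro p hp
    obtain ⟨T, hT1, hT2⟩ := hT p hp
    have h1 := root_of_eig T (a p) x hx hT2
    have h2 : aeval (σ ⟨a p, hK p⟩) T.charpoly = 0 := by
      have h3 : aeval (⟨a p, hK p⟩ : multField W hW) T.charpoly = 0 := by
        apply Subtype.val_injective
        have h4 := Polynomial.aeval_algebraMap_apply ℂ (⟨a p, hK p⟩ : multField W hW) T.charpoly
        have h5 : algebraMap (multField W hW) ℂ ⟨a p, hK p⟩ = a p := rfl
        rw [h5, h1] at h4
        exact h4.symm
      have h6 := Polynomial.aeval_algHom_apply (σ.restrictScalars ℤ)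
        (⟨a p, hK p⟩ : multField W hW) T.charpoly
      rw [h3, map_zero] at h6
      exact h6
    have h7 := root_bound T _ (C * (p : ℝ) ^ A) (by
      intro i j
      have := hT1 i j
      exact_mod_cast this) h2
    rw [hD]
    push_cast
    linarith
  have hσχ : ∀ p : ℕ, ‖σ ⟨χ p, hKχ p⟩‖ ≤ 1 := by
    intro p
    rcases hχ p with h | h
    · have : (⟨χ p, hKχ p⟩ : multField W hW) = 0 := Subtype.ext h
      rw [this, map_zero, norm_zero]
      exact zero_le_one
    · have h1 : (⟨χ p, hKχ p⟩ : multField W hW) ^ e = 1 := Subtype.ext h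
      have h2 : ‖σ ⟨χ p, hKχ p⟩‖ ^ e = 1 := by
        rw [← norm_pow, ← map_pow, h1, map_one, norm_one]
      by_contra hcon
      push Not at hcon
      have := one_lt_pow₀ hcon (show e ≠ 0 by omega)
      linarith
  have hB : ∀ N : ℕ, 1 ≤ N → ‖σ ⟨a N, hK N⟩‖ ≤ (N : ℝ) ^ (A + D + 1 + k) := by
    intro N
    induction N using Nat.strong_induction_on with
    | _ N ih =>
      intro hN1
      by_cases h1 : N = 1
      · subst h1
        have : (⟨a 1, hK 1⟩ : multField W hW) = 1 := Subtype.ext ha1
        rw [this, map_one]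
        simp
      have hp := Nat.minFac_prime h1
      obtain ⟨q, hq⟩ := Nat.minFac_dvd N
      have hq0 : 0 < q := by
        rcases Nat.eq_zero_or_pos q with h | h
        · rw [h, mul_zero] at hq; omega
        · exact h
      have hqN : q < N := by
        calc q < N.minFac * q := by nlinarith [hp.two_le]
          _ = N := hq.symm
      set p := N.minFac with hpdef
      have hp2 : (2 : ℝ) ≤ p := by exact_mod_cast hp.two_le
      have hp1 : (1 : ℝ) ≤ p := by linarith
      have hqr : (1 : ℝ) ≤ q := by exact_mod_cast hq0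
      have hqB : (0 : ℝ) ≤ (q : ℝ) ^ (A + D + 1 + k) := by positivity
      have e1 : σ ⟨a N, hK N⟩ = σ ⟨a p, hK p⟩ * σ ⟨a q, hK q⟩ -
          (if p ∣ q then σ ⟨χ p, hKχ p⟩ * (p : ℂ) ^ (k - 1) * σ ⟨a (q / p), hK (q / p)⟩ else 0) := by
        have h2 : (⟨a N, hK N⟩ : multField W hW) = ⟨a p, hK p⟩ * ⟨a q, hK q⟩ -
            (if p ∣ q then ⟨χ p, hKχ p⟩ * (p : multField W hW) ^ (k - 1) *
              ⟨a (q / p), hK (q / p)⟩ else 0) := by
          apply Subtype.val_injective
          have h3 : a N = a p * a q - if p ∣ q then χ p * (p : ℂ) ^ (k - 1) * a (q / p) else 0 := by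
            conv_lhs => rw [hq]
            exact hrec p hp q
          by_cases hpq : p ∣ q
          · simp only [hpq, if_true] at h3 ⊢
            simpa using h3
          · simp only [hpq, if_false] at h3 ⊢
            simpa using h3
        rw [h2, map_sub, map_mul]
        congr 1
        by_cases hpq : p ∣ q
        · simp only [hpq, if_true]
          rw [map_mul, map_mul, map_pow, map_natCast]
        · simp only [hpq, if_false, map_zero]
      rw [e1]
      have h4 : ‖σ ⟨a p, hK p⟩ * σ ⟨a q, hK q⟩‖ ≤ (D * (p : ℝ) ^ A) * (q : ℝ) ^ (A + D + 1 + k) := by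
        rw [norm_mul]
        exact mul_le_mul (hσp p hp) (ih q hqN hq0) (norm_nonneg _) (by positivity)
      have h5 : ‖(if p ∣ q then σ ⟨χ p, hKχ p⟩ * (p : ℂ) ^ (k - 1) *
          σ ⟨a (q / p), hK (q / p)⟩ else 0)‖ ≤ (q : ℝ) ^ (A + D + 1 + k) := by
        split_ifs with hpq
        · obtain ⟨r, hr⟩ := hpq
          have hr' : q / p = r := by rw [hr]; exact Nat.mul_div_cancel_left _ hp.pos
          have hr0 : 0 < r := by
            rcases Nat.eq_zero_or_pos r with h | h
            · rw [h, mul_zero] at hr; omega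
            · exact h
          have hrN : q / p < N := lt_of_le_of_lt (Nat.div_le_self _ _) hqN
          have h6 := ih (q / p) hrN (by rw [hr']; exact hr0)
          rw [norm_mul, norm_mul, norm_pow, Complex.norm_natCast]
          calc ‖σ ⟨χ p, hKχ p⟩‖ * (p : ℝ) ^ (k - 1) * ‖σ ⟨a (q / p), hK (q / p)⟩‖
              ≤ 1 * (p : ℝ) ^ (A + D + 1 + k) * ((q / p : ℕ) : ℝ) ^ (A + D + 1 + k) := by
                apply mul_le_mul _ h6 (norm_nonneg _) (by positivity)
                apply mul_le_mul (hσχ p) _ (by positivity) zero_le_one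
                exact pow_le_pow_right₀ hp1 (by omega)
            _ = (q : ℝ) ^ (A + D + 1 + k) := by
                rw [one_mul, ← mul_pow, hr', hr]
                push_cast
                ring
        · rw [norm_zero]; exact hqB
      have h8 : (D : ℝ) * (p : ℝ) ^ A + 1 ≤ (p : ℝ) ^ (A + D + 1 + k) := by
        have h9 : (1 : ℝ) ≤ (p : ℝ) ^ A := one_le_pow₀ hp1
        have h10 : (D : ℝ) + 1 ≤ (p : ℝ) ^ (D + 1 + k) := by
          have h11 : D + 1 ≤ 2 ^ (D + 1) := (Nat.lt_two_pow_self).le
          calc (D : ℝ) + 1 ≤ 2 ^ (D + 1) := by exact_mod_cast h11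
            _ ≤ (p : ℝ) ^ (D + 1) := pow_le_pow_left₀ (by norm_num) hp2 _
            _ ≤ (p : ℝ) ^ (D + 1 + k) := pow_le_pow_right₀ hp1 (by omega)
        calc (D : ℝ) * (p : ℝ) ^ A + 1 ≤ (D : ℝ) * (p : ℝ) ^ A + (p : ℝ) ^ A := by linarith
          _ = (p : ℝ) ^ A * (D + 1) := by ring
          _ ≤ (p : ℝ) ^ A * (p : ℝ) ^ (D + 1 + k) :=
              mul_le_mul_of_nonneg_left h10 (by positivity)
          _ = (p : ℝ) ^ (A + D + 1 + k) := by rw [← pow_add]; congr 1; ring
      calc ‖σ ⟨a p, hK p⟩ * σ ⟨a q, hK q⟩ -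
          (if p ∣ q then σ ⟨χ p, hKχ p⟩ * (p : ℂ) ^ (k - 1) * σ ⟨a (q / p), hK (q / p)⟩ else 0)‖
          ≤ (D * (p : ℝ) ^ A) * (q : ℝ) ^ (A + D + 1 + k) + (q : ℝ) ^ (A + D + 1 + k) :=
            (norm_sub_le _ _).trans (add_le_add h4 h5)
        _ = (D * (p : ℝ) ^ A + 1) * (q : ℝ) ^ (A + D + 1 + k) := by ring
        _ ≤ (p : ℝ) ^ (A + D + 1 + k) * (q : ℝ) ^ (A + D + 1 + k) :=
            mul_le_mul_of_nonneg_right h8 hqB
        _ = (N : ℝ) ^ (A + D + 1 + k) := by
            rw [← mul_pow]
            congr 1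
            exact_mod_cast hq.symm
  intro N
  by_cases hN : N = 0
  · subst hN
    have : (⟨a 0, hK 0⟩ : multField W hW) = 0 := Subtype.ext ha0
    rw [this, map_zero, norm_zero]
    positivity
  · refine (hB N (by omega)).trans ?_
    rw [Nat.cast_one, one_mul]
    exact pow_le_pow_left₀ (by positivity) (by linarith) _

end H639.PER
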