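import Pool.Agent.Run7.h635.PER.Stm

/-!
# RP2 and REC (project PER of helper635)
-/

set_option autoImplicit false

open Polynomial
open scoped MatrixGroups

namespace H639.PER

open H635.PER

lemma rp_mono {ι : Type} [Fintype ι] {x : ι → ℂ} {m B B' : ℕ} {P : Polynomial ℂ} (h : B ≤ B')
    (hP : Rp x m B P) : Rp x m B' P := by
  refine ⟨hP.1, fun i hi => ?_⟩
  obtain ⟨c, hc, h2⟩ := hP.2 i hi
  exact ⟨c, fun s => (hc s).trans (by exact_mod_cast h), h2⟩

lemma rp_add {ι : Type} [Fintype ι] {x : ι → ℂ} {m B B' : ℕ} {P Q : Polynomial ℂ}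
    (hP : Rp x m B P) (hQ : Rp x m B' Q) : Rp x m (B + B') (P + Q) := by
  refine ⟨Submodule.add_mem _ hP.1 hQ.1, fun i hi => ?_⟩
  obtain ⟨c, hc, h2⟩ := hP.2 i hi
  obtain ⟨c', hc', h2'⟩ := hQ.2 i hi
  refine ⟨fun s => c s + c' s, fun s => ?_, ?_⟩
  · have := abs_add_le (c s) (c' s)
    have h3 := hc s
    have h4 := hc' s
    push_cast
    linarith
  · rw [coeff_add, h2, h2', ← Finset.sum_add_distrib]
    apply Finset.sum_congr rfl
    intro s _
    push_cast
    ring

lemma rp_zero {ι : Type} [Fintype ι] (x : ι → ℂ) (m : ℕ) (B : ℕ) : Rp x m B 0 := by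
  refine ⟨Submodule.zero_mem _, fun i _ => ⟨fun _ => 0, fun s => by simp, by simp⟩⟩

/-- one linear factor -/
lemma coeff_mul_lin (Q : Polynomial ℤ) (a b Y K : ℤ) (ha : |a| ≤ Y) (hb : |b| ≤ Y)
    (hQ : ∀ i, |Q.coeff i| ≤ K) (i : ℕ) :
    |(Q * (C a * X + C b)).coeff i| ≤ 2 * Y * K := by
  have hK : 0 ≤ K := (abs_nonneg _).trans (hQ 0)
  have hY : 0 ≤ Y := (abs_nonneg _).trans ha
  have e : Q * (C a * X + C b) = C a * (Q * X) + C b * Q := by ring
  have h1 : ∀ j, |b * Q.coeff j| ≤ Y * K := fun j => by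
    rw [abs_mul]
    exact mul_le_mul hb (hQ j) (abs_nonneg _) hY
  have h2 : ∀ j, |a * Q.coeff j| ≤ Y * K := fun j => by
    rw [abs_mul]
    exact mul_le_mul ha (hQ j) (abs_nonneg _) hY
  rw [e, coeff_add, coeff_C_mul, coeff_C_mul]
  rcases i with _ | i
  · rw [coeff_mul_X_zero, mul_zero, zero_add]
    have := h1 0
    nlinarith [mul_nonneg hY hK]
  · rw [coeff_mul_X]
    have := abs_add_le (a * Q.coeff i) (b * Q.coeff (i + 1))
    have h3 := h1 (i + 1)
    have h4 := h2 i
    linarith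

lemma coeff_prod (a b c d Y : ℤ) (ha : |a| ≤ Y) (hb : |b| ≤ Y) (hc : |c| ≤ Y) (hd : |d| ≤ Y)
    (j l i : ℕ) :
    |((C a * X + C b) ^ j * (C c * X + C d) ^ l : Polynomial ℤ).coeff i| ≤ (2 * Y) ^ (j + l) := by
  induction l generalizing i with
  | zero =>
    rw [pow_zero, mul_one, add_zero]
    induction j generalizing i with
    | zero =>
      rw [pow_zero, pow_zero, coeff_one]
      split_ifs <;> simp
    | succ j ih =>
      rw [pow_succ]
      refine (coeff_mul_lin _ a b Y _ ha hb ih i).trans (le_of_eq ?_)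
      ring
  | succ l ih =>
    rw [pow_succ, ← mul_assoc]
    refine (coeff_mul_lin _ c d Y _ hc hd ih i).trans (le_of_eq ?_)
    ring

/-- **RP2** -/
theorem rp2 : S_Rp2 := by
  intro ι _ x m B Y P δ hδ hP
  classical
  set Q : ℕ → Polynomial ℤ := fun j =>
    (C (δ 0 0) * X + C (δ 0 1)) ^ j * (C (δ 1 0) * X + C (δ 1 1)) ^ (m - 1 - j) with hQ
  have hpact : pact m P δ = ∑ j ∈ Finset.range m, C (P.coeff j) * (Q j).map (Int.castRingHom ℂ) := by
    unfold pact
    apply Finset.sum_congr rfl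
    intro j _
    rw [mul_assoc]
    congr 1
    simp only [hQ, Polynomial.map_mul, Polynomial.map_pow, Polynomial.map_add, Polynomial.map_C,
      Polynomial.map_X]
    rfl
  constructor
  · rw [hpact]
    apply Submodule.sum_mem
    intro j hj
    have hj' := Finset.mem_range.1 hj
    rw [mem_degreeLT]
    have hm : (0 : ℕ) < m := by omega
    rw [Polynomial.degree_lt_iff_coeff_zero]
    intro i hi
    rw [coeff_C_mul, coeff_map]
    have h1 : (Q j).natDegree ≤ m - 1 := by
      have hlin : ∀ a b : ℤ, (C a * X + C b : Polynomial ℤ).natDegree ≤ 1 := fun a b =>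
        Polynomial.natDegree_linear_le
      refine (natDegree_mul_le).trans ?_
      have h2 := (natDegree_pow_le (p := (C (δ 0 0) * X + C (δ 0 1) : Polynomial ℤ)) (n := j))
      have h3 := (natDegree_pow_le (p := (C (δ 1 0) * X + C (δ 1 1) : Polynomial ℤ))
        (n := m - 1 - j))
      have h4 : j * (C (δ 0 0) * X + C (δ 0 1) : Polynomial ℤ).natDegree ≤ j * 1 :=
        Nat.mul_le_mul_left _ (hlin _ _)
      have h5 : (m - 1 - j) * (C (δ 1 0) * X + C (δ 1 1) : Polynomial ℤ).natDegree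
          ≤ (m - 1 - j) * 1 := Nat.mul_le_mul_left _ (hlin _ _)
      omega
    have h6 : (Q j).coeff i = 0 := coeff_eq_zero_of_natDegree_lt (by omega)
    rw [h6]
    simp
  · intro i hi
    have hc : ∀ j : ℕ, ∃ c : ι → ℤ, j < m → ((∀ s, |c s| ≤ B) ∧ P.coeff j = ∑ s, (c s : ℂ) * x s) := by
      intro j
      by_cases hj : j < m
      · obtain ⟨c, hc⟩ := hP.2 j hj
        exact ⟨c, fun _ => hc⟩
      · exact ⟨0, fun h => absurd h hj⟩
    choose c hc using hc
    refine ⟨fun s => ∑ j ∈ Finset.range m, c j s * (Q j).coeff i, fun s => ?_, ?_⟩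
    · calc |∑ j ∈ Finset.range m, c j s * (Q j).coeff i|
          ≤ ∑ j ∈ Finset.range m, |c j s * (Q j).coeff i| := Finset.abs_sum_le_sum_abs _ _
        _ ≤ ∑ j ∈ Finset.range m, (B : ℤ) * (2 * (Y : ℤ)) ^ (m - 1) := by
            apply Finset.sum_le_sum
            intro j hj
            have hj' := Finset.mem_range.1 hj
            rw [abs_mul]
            have h1 := coeff_prod (δ 0 0) (δ 0 1) (δ 1 0) (δ 1 1) Y (hδ 0 0) (hδ 0 1) (hδ 1 0)
              (hδ 1 1) j (m - 1 - j) i
            rw [show j + (m - 1 - j) = m - 1 by omega] at h1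
            exact mul_le_mul ((hc j hj').1 s) h1 (abs_nonneg _) (by positivity)
        _ = ((m * B * (2 * Y) ^ (m - 1) : ℕ) : ℤ) := by
            rw [Finset.sum_const, Finset.card_range]
            push_cast
            rw [nsmul_eq_mul]
            ring
    · rw [hpact, finsetSum_coeff]
      have h1 : ∀ j ∈ Finset.range m, (C (P.coeff j) * (Q j).map (Int.castRingHom ℂ)).coeff i
          = ∑ s, (c j s : ℂ) * ((Q j).coeff i : ℂ) * x s := by
        intro j hj
        rw [coeff_C_mul, coeff_map, (hc j (Finset.mem_range.1 hj)).2, Finset.sum_mul]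
        apply Finset.sum_congr rfl
        intro s _
        simp only [eq_intCast]
        ring
      rw [Finset.sum_congr rfl h1, Finset.sum_comm]
      apply Finset.sum_congr rfl
      intro s _
      push_cast
      rw [Finset.sum_mul]

/-- the entries of `γ''` in the Euclidean algorithm -/
lemma euclid (γ : SL(2, ℤ)) (hc : γ 1 0 ≠ 0) : ∃ (n : ℤ) (γ' : SL(2, ℤ)),
    γ = ModularGroup.T ^ n * ModularGroup.S * γ' ∧ γ' 0 0 = γ 1 0 ∧ γ' 0 1 = γ 1 1 ∧
    |γ' 1 0| < |γ 1 0| ∧ |γ' 1 0| + |γ' 1 1| ≤ |γ 1 0| + |γ 1 1| := by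
  set n : ℤ := γ 0 0 / γ 1 0 with hn
  refine ⟨n, (ModularGroup.T ^ n * ModularGroup.S)⁻¹ * γ, by group, ?_⟩
  have hinv : (ModularGroup.T ^ n * ModularGroup.S)⁻¹ * γ
      = ModularGroup.S⁻¹ * (ModularGroup.T ^ (-n) * γ) := by
    rw [mul_inv_rev, zpow_neg, mul_assoc]
  have hT : ((ModularGroup.T ^ (-n) * γ : SL(2, ℤ)) : Matrix (Fin 2) (Fin 2) ℤ)
      = !![γ 0 0 - n * γ 1 0, γ 0 1 - n * γ 1 1; γ 1 0, γ 1 1] := by
    rw [Matrix.SpecialLinearGroup.coe_mul, ModularGroup.coe_T_zpow]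
    ext i j
    fin_cases i <;> fin_cases j <;> simp [Matrix.mul_apply, Fin.sum_univ_two] <;> ring
  have hS : ((ModularGroup.S⁻¹ * (ModularGroup.T ^ (-n) * γ) : SL(2, ℤ)) : Matrix (Fin 2) (Fin 2) ℤ)
      = !![γ 1 0, γ 1 1; -(γ 0 0 - n * γ 1 0), -(γ 0 1 - n * γ 1 1)] := by
    rw [Matrix.SpecialLinearGroup.coe_mul, hT, Matrix.SpecialLinearGroup.coe_inv,
      ModularGroup.coe_S, Matrix.adjugate_fin_two_of]
    ext i j
    fin_cases i <;> fin_cases j <;> simp [Matrix.mul_apply, Fin.sum_univ_two]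
  rw [hinv]
  have hdet : γ 0 0 * γ 1 1 - γ 0 1 * γ 1 0 = 1 := by
    have := γ.det_coe
    rw [Matrix.det_fin_two] at this
    exact this
  have e00 : (ModularGroup.S⁻¹ * (ModularGroup.T ^ (-n) * γ) : SL(2, ℤ)) 0 0 = γ 1 0 := by
    have := congrFun (congrFun hS 0) 0
    simpa using this
  have e01 : (ModularGroup.S⁻¹ * (ModularGroup.T ^ (-n) * γ) : SL(2, ℤ)) 0 1 = γ 1 1 := by
    have := congrFun (congrFun hS 0) 1
    simpa using this
  have e10 : (ModularGroup.S⁻¹ * (ModularGroup.T ^ (-n) * γ) : SL(2, ℤ)) 1 0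
      = -(γ 0 0 - n * γ 1 0) := by
    have := congrFun (congrFun hS 1) 0
    simpa using this
  have e11 : (ModularGroup.S⁻¹ * (ModularGroup.T ^ (-n) * γ) : SL(2, ℤ)) 1 1
      = -(γ 0 1 - n * γ 1 1) := by
    have := congrFun (congrFun hS 1) 1
    simpa using this
  refine ⟨e00, e01, ?_, ?_⟩
  · rw [e10, abs_neg]
    have h1 : γ 0 0 - n * γ 1 0 = γ 0 0 % γ 1 0 := by
      rw [Int.emod_def, hn]; ring
    rw [h1, abs_of_nonneg (Int.emod_nonneg _ hc)]
    exact Int.emod_lt_abs _ hc
  · rw [e10, e11, abs_neg, abs_neg]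
    have h1 : γ 0 0 - n * γ 1 0 = γ 0 0 % γ 1 0 := by
      rw [Int.emod_def, hn]; ring
    have ha : |γ 0 0 - n * γ 1 0| < |γ 1 0| := by
      rw [h1, abs_of_nonneg (Int.emod_nonneg _ hc)]
      exact Int.emod_lt_abs _ hc
    set a' := γ 0 0 - n * γ 1 0 with ha'
    set b' := γ 0 1 - n * γ 1 1 with hb'
    have hd' : a' * γ 1 1 - b' * γ 1 0 = 1 := by
      rw [ha', hb']
      linear_combination hdet
    have hb : |b'| * |γ 1 0| ≤ |a'| * |γ 1 1| + 1 := by
      rw [← abs_mul, ← abs_mul]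
      have : b' * γ 1 0 = a' * γ 1 1 - 1 := by linarith
      rw [this]
      have := abs_sub (a' * γ 1 1) 1
      simpa using this
    have hc1 : 1 ≤ |γ 1 0| := Int.one_le_abs hc
    by_cases hd : γ 1 1 = 0
    · rw [hd] at hd' hb ⊢
      rw [abs_zero, mul_zero, zero_add] at hb
      have hb1 : |b'| ≤ 1 := by nlinarith [abs_nonneg b']
      rw [abs_zero, add_zero]
      linarith
    · have hd1 : 1 ≤ |γ 1 1| := Int.one_le_abs hd
      have hb2 : |b'| ≤ |γ 1 1| := by
        by_contra hcon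
        push Not at hcon
        have h2 : |a'| ≤ |γ 1 0| - 1 := by linarith
        nlinarith [abs_nonneg a', abs_nonneg b']
      linarith

/-- **REC** -/
theorem rec : S_Rec := by
  intro hRp2 ι _ x m σ act r hm hact h0 hcoc hS
  have key : ∀ (N : ℕ) (h : σ) (γ : SL(2, ℤ)) (X : ℕ), |γ 1 0| ≤ N → |γ 1 0| + |γ 1 1| ≤ X →
      Rp x m (N * m * (2 * X) ^ (m - 1)) (r h γ) := by
    intro N
    induction N with
    | zero =>
      intro h γ X hN _
      have : γ 1 0 = 0 := by
        have := abs_nonneg (γ 1 0)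
        have h2 : |γ 1 0| = 0 := by push_cast at hN; linarith
        exact abs_eq_zero.1 h2
      rw [h0 h γ this]
      exact rp_zero _ _ _
    | succ N ih =>
      intro h γ X hN hX
      by_cases hc : γ 1 0 = 0
      · rw [h0 h γ hc]
        exact rp_zero _ _ _
      · obtain ⟨n, γ', hγ, e00, e01, hlt, hle⟩ := euclid γ hc
        have hTn : r h (ModularGroup.T ^ n) = 0 := by
          apply h0
          have := congrFun (congrFun (ModularGroup.coe_T_zpow n) 1) 0
          simpa using this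
        have hpz : pact m 0 (ModularGroup.S : Matrix (Fin 2) (Fin 2) ℤ) = 0 := by
          simp [pact]
        have e1 : r h γ = r (act h (ModularGroup.T ^ n * ModularGroup.S)) γ'
            + pact m (r (act h (ModularGroup.T ^ n)) ModularGroup.S) γ' := by
          conv_lhs => rw [hγ]
          rw [hcoc, hcoc h (ModularGroup.T ^ n) ModularGroup.S, hTn, hpz, add_zero]
        rw [e1]
        have hX' : |γ' 1 0| + |γ' 1 1| ≤ X := hle.trans hX
        have h1 := ih (act h (ModularGroup.T ^ n * ModularGroup.S)) γ' X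
          (by push_cast at hN; linarith) hX'
        have h2 := hRp2 ι x m 1 X (r (act h (ModularGroup.T ^ n)) ModularGroup.S) γ' (by
          have p1 := abs_nonneg (γ 1 0)
          have p2 := abs_nonneg (γ 1 1)
          have p3 := abs_nonneg (γ' 1 0)
          have p4 := abs_nonneg (γ' 1 1)
          intro i j
          fin_cases i <;> fin_cases j
          · show |γ' 0 0| ≤ X
            rw [e00]; linarith
          · show |γ' 0 1| ≤ X
            rw [e01]; linarith
          · show |γ' 1 0| ≤ X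
            linarith
          · show |γ' 1 1| ≤ X
            linarith) (hS _)
        refine rp_mono (le_of_eq ?_) (rp_add h1 h2)
        ring
  intro h γ X hX
  have hcX : |γ 1 0| ≤ X := by
    have := abs_nonneg (γ 1 1)
    linarith
  exact key X h γ X hcX hX

end H639.PER
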